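import Pool.Agent.TH625.HP.Main

/-!
An inhomogeneous hyperpolar foliation of codimension two on `SL(3,ℝ)/SO(3)`.

Every `P` in `M = SL(3,ℝ)/SO(3)` is uniquely `P = U D Uᵀ`, with `U` unipotent upper triangular with
off-diagonal entries `x, v₁, v₂` and `D = diag (s y, s / y, s⁻²)`; the metric is
`6 ds²/s² + 2 (dx² + dy²)/y² + 2 s⁻³ ((dv₁ - x dv₂)²/y + y dv₂²)`. The hyperbolic plane `(x, y)`
is foliated by the geodesics joining `-r` to `3 r`, `r = exp ρ > 0`; they are parametrised by arc
length `a` such that the curves `a = const` are their orthogonal trajectories. The leaves in `M` are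
the subsets `(a, s) = const`; they are parametrised by `(ρ, v₁, v₂)`, and the sections are the flats
`(ρ, v₁, v₂) = const`. The lengths of the vectors `∂/∂ρ` on all leaves together determine `ρ`, and
so no isometry preserving all leaves moves `ρ`.
-/

set_option autoImplicit false

open Pool.Agent.TH625.HP

namespace Pool.Agent.Results.MP_08f71d_gt.InhomogeneousHyperpolar

/-- There is a hyperpolar foliation `F` of the irreducible symmetric space `SL(3,ℝ)/SO(3)` of
noncompact type, with leaves of dimension three and flat sections of dimension two (the codimension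
of the leaves), which is not homogeneous. -/
theorem result : ∃ F : Set (Set Mat3),
    IsRiemannianFoliation F 3 ∧ IsHyperpolar F 2 ∧ ¬ IsHomogeneous F :=
  ⟨FF, riem_FF, hyper_FF, not_homogeneous⟩

end Pool.Agent.Results.MP_08f71d_gt.InhomogeneousHyperpolar
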